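import Pool.Agent.Q167.FD.Main

/-!
# The action of the group ring on functions and smoothed positive definite functions
-/

set_option autoImplicit false

open Finset AddMonoidAlgebra

namespace Pool.Agent.Q167.FE

open Pool.Agent.Q167.FD

section act

variable {G : Type} [AddCommGroup G]

/-- translations -/
def tr : Multiplicative G →* Module.End ℤ (G → ℤ) where
  toFun c :=
    { toFun := fun f b => f (b - c.toAdd)
      map_add' := fun _ _ => rfl
      map_smul' := fun _ _ => rfl }
  map_one' := by
    ext f b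
    simp
  map_mul' c d := by
    ext f b
    simp only [toAdd_mul, LinearMap.coe_mk, AddHom.coe_mk, Module.End.mul_apply]
    congr 1
    abel

/-- the action of the group ring on functions -/
noncomputable def ac : ℤ[G] →ₐ[ℤ] Module.End ℤ (G → ℤ) :=
  AddMonoidAlgebra.lift ℤ (Module.End ℤ (G → ℤ)) G tr

theorem ac_single (c : G) (z : ℤ) (f : G → ℤ) (b : G) : ac (single c z) f b = z * f (b - c) := by
  unfold ac
  rw [AddMonoidAlgebra.lift_single]
  rfl

theorem ac_apply (A : ℤ[G]) (f : G → ℤ) (b : G) :
    ac A f b = ∑ c ∈ A.coeff.support, A.coeff c * f (b - c) := by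
  unfold ac
  rw [AddMonoidAlgebra.lift_apply, Finsupp.sum, LinearMap.sum_apply, Finset.sum_apply]
  rfl

theorem ac_mul (A B : ℤ[G]) (f : G → ℤ) : ac (A * B) f = ac A (ac B f) := by
  rw [map_mul]
  rfl

theorem ac_map (κ : G →+ G) (A : ℤ[G]) (f : G → ℤ) (b : G) :
    ac (mapDomainRingHom ℤ κ A) f b = ∑ c ∈ A.coeff.support, A.coeff c * f (b - κ c) := by
  have h1 : (ac (G := G)).toRingHom.comp (mapDomainRingHom ℤ κ) =
      (AddMonoidAlgebra.lift ℤ (Module.End ℤ (G → ℤ)) G
        (tr.comp (AddMonoidHom.toMultiplicative κ))).toRingHom := by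
    refine AddMonoidAlgebra.ringHom_ext ?_ ?_
    · intro a
      simp only [RingHom.comp_apply, RingHom.coe_comp, Function.comp_apply]
      ext f b
      show ac (mapDomainRingHom ℤ κ (single 0 a)) f b =
        (AddMonoidAlgebra.lift ℤ (Module.End ℤ (G → ℤ)) G
          (tr.comp (AddMonoidHom.toMultiplicative κ))) (single 0 a) f b
      rw [mapDomainRingHom_apply, mapDomain_single, map_zero, ac_single,
        AddMonoidAlgebra.lift_single]
      show a * f (b - 0) = a * f (b - κ 0)
      rw [map_zero]
    · intro g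
      show ac (mapDomainRingHom ℤ κ (single g 1)) = _
      rw [mapDomainRingHom_apply, mapDomain_single]
      ext f b
      rw [ac_single]
      show _ = (AddMonoidAlgebra.lift ℤ (Module.End ℤ (G → ℤ)) G
        (tr.comp (AddMonoidHom.toMultiplicative κ))) (single g 1) f b
      rw [AddMonoidAlgebra.lift_single]
      rfl
  have h2 : ac (mapDomainRingHom ℤ κ A) = (AddMonoidAlgebra.lift ℤ (Module.End ℤ (G → ℤ)) G
        (tr.comp (AddMonoidHom.toMultiplicative κ))) A := RingHom.congr_fun h1 A
  rw [h2, AddMonoidAlgebra.lift_apply, Finsupp.sum, LinearMap.sum_apply, Finset.sum_apply]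
  rfl

/-- coefficients of products -/
theorem coeff_mul (A B : ℤ[G]) (b : G) : (A * B).coeff b = ac A (fun x => B.coeff x) b := by
  induction A using AddMonoidAlgebra.induction_on with
  | of g =>
    show (single (Multiplicative.toAdd g) 1 * B).coeff b = ac (single (Multiplicative.toAdd g) 1) _ b
    rw [ac_single, coeff_single_mul_apply, neg_add_eq_sub]
  | add x y hx hy =>
    rw [add_mul, map_add]
    show (x * B).coeff b + (y * B).coeff b = _
    rw [hx, hy]
    rfl
  | smul z x hx =>
    rw [smul_mul_assoc, map_smul]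
    show z * (x * B).coeff b = _
    rw [hx]
    rfl

/-- the reflection -/
noncomputable def ng : ℤ[G] →+* ℤ[G] := mapDomainRingHom ℤ (negAddMonoidHom : G →+ G)

theorem ac_sm (F : ℤ[G]) (f : G → ℤ) (a : G) : ac (F * ng F) f a =
    ∑ y ∈ F.coeff.support, ∑ x ∈ F.coeff.support, F.coeff y * F.coeff x * f (a - y + x) := by
  rw [ac_mul, ac_apply]
  refine sum_congr rfl fun y _ => ?_
  unfold ng
  rw [ac_map, mul_sum]
  refine sum_congr rfl fun x _ => ?_
  rw [mul_assoc]
  congr 2
  simp

/-- smoothing preserves positive definite functions -/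
theorem pd_sm (F : ℤ[G]) {φ : G → ℤ} (h : PD fun a => (φ a : ℝ)) :
    PD fun a => ((ac (F * ng F) φ a : ℤ) : ℝ) := by
  constructor
  · intro a
    beta_reduce
    rw [ac_sm, ac_sm]
    push_cast
    rw [sum_comm]
    refine sum_congr rfl fun y _ => sum_congr rfl fun x _ => ?_
    have h1 := h.1 (a - y + x)
    beta_reduce at h1
    rw [← h1]
    have : -(a - y + x) = -a - x + y := by abel
    rw [this]
    ring
  · intro ι _ p c
    have h1 := h.2 (ι × F.coeff.support) (fun i => p i.1 + (i.2 : G))
      (fun i => c i.1 * (F.coeff (i.2 : G) : ℝ))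
    refine le_of_le_of_eq h1 ?_
    rw [Fintype.sum_prod_type]
    refine sum_congr rfl fun i _ => ?_
    simp_rw [Fintype.sum_prod_type]
    rw [sum_comm]
    refine sum_congr rfl fun j _ => ?_
    rw [ac_sm]
    push_cast
    rw [mul_sum, ← sum_coe_sort F.coeff.support, sum_comm]
    refine sum_congr rfl fun y _ => ?_
    rw [mul_sum, ← sum_coe_sort F.coeff.support]
    refine sum_congr rfl fun x _ => ?_
    have : p i + (x : G) - (p j + (y : G)) = p i - p j - y + x := by abel
    rw [this]
    ring

/-- the geometric sum -/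
noncomputable def kap (k : ℕ) (v : G) : ℤ[G] := ∑ i ∈ range k, (single v 1) ^ i

theorem kap_mul (k : ℕ) (v : G) : (1 - single v 1) * kap k v = 1 - single (k • v) 1 := by
  unfold kap
  rw [mul_comm, geom_sum_mul_neg, single_pow, one_pow]

theorem ng_single (v : G) (z : ℤ) : ng (single v z) = single (-v) z := by
  unfold ng
  rw [mapDomainRingHom_apply, mapDomain_single]
  rfl

theorem ng_kap (k : ℕ) (v : G) : ng (kap k v) = kap k (-v) := by
  unfold kap
  rw [map_sum]
  refine sum_congr rfl fun i _ => ?_
  rw [map_pow, ng_single]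

/-- the test function -/
noncomputable def Fk {m : ℕ} (k : ℕ) (Φ : Fin m → G) : ℤ[G] := ∏ j, kap k (Φ j)

theorem den_Fk {m : ℕ} (k : ℕ) (Φ : Fin m → G) :
    den Φ * (Fk k Φ * ng (Fk k Φ)) = den fun j => k • Φ j := by
  unfold den Fk
  rw [map_prod, ← prod_mul_distrib, ← prod_mul_distrib]
  refine prod_congr rfl fun j _ => ?_
  rw [ng_kap, ← smul_neg, ← kap_mul, ← kap_mul]
  ring

theorem den_smul {m : ℕ} (k : ℕ) (Φ : Fin m → G) :
    (den fun j => k • Φ j) = mapDomainRingHom ℤ (DistribSMul.toAddMonoidHom G k) (den Φ) := by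
  unfold den
  rw [map_prod]
  refine prod_congr rfl fun j _ => ?_
  rw [map_mul, map_sub, map_sub, map_one, mapDomainRingHom_apply, mapDomain_single,
    mapDomainRingHom_apply, mapDomain_single]
  simp

/-- the main identity -/
theorem ac_den {m : ℕ} (k : ℕ) (Φ : Fin m → G) (f : G → ℤ) (b : G) :
    ac (den Φ) (ac (Fk k Φ * ng (Fk k Φ)) f) b =
      ∑ c ∈ (den Φ).coeff.support, (den Φ).coeff c * f (b - k • c) := by
  rw [← ac_mul, den_Fk, den_smul, ac_map]
  rfl

/-- divisibility -/
theorem dvd_of_mul {n : ℤ} {v : G} (hv : ∀ N : ℕ, ∀ k : ℕ, N • v = k • v → N = k) {A : ℤ[G]}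
    (h : ∀ b, n ∣ ((1 - single v 1) * A).coeff b) (b : G) : n ∣ A.coeff b := by
  have h1 : ∀ b, n ∣ A.coeff b - A.coeff (b - v) := by
    intro b
    have h2 := h b
    rw [coeff_mul, map_sub, map_one] at h2
    have h3 : (1 - ac (single v 1) : Module.End ℤ (G → ℤ)) (fun x => A.coeff x) b =
        A.coeff b - A.coeff (b - v) := by
      show A.coeff b - ac (single v 1) (fun x => A.coeff x) b = _
      rw [ac_single, one_mul]
    rwa [h3] at h2
  have h2 : ∀ N : ℕ, n ∣ A.coeff b - A.coeff (b - N • v) := by
    intro N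
    induction N with
    | zero => simp
    | succ N ih =>
      have h3 := dvd_add ih (h1 (b - N • v))
      have : b - N • v - v = b - (N + 1) • v := by
        rw [succ_nsmul]
        abel
      rw [this] at h3
      have h4 : A.coeff b - A.coeff (b - N • v) + (A.coeff (b - N • v) - A.coeff (b - (N + 1) • v)) =
          A.coeff b - A.coeff (b - (N + 1) • v) := by ring
      rwa [h4] at h3
  by_contra hcon
  have hne : ∀ N : ℕ, b - N • v ∈ A.coeff.support := by
    intro N
    rw [Finsupp.mem_support_iff]
    intro h3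
    have h4 := h2 N
    rw [h3, sub_zero] at h4
    exact hcon h4
  have hinj : Function.Injective fun N : ℕ => b - N • v := by
    intro N k hNk
    exact hv N k (sub_right_injective hNk)
  exact (Set.infinite_range_of_injective hinj) (A.coeff.support.finite_toSet.subset (by
    rintro _ ⟨N, rfl⟩
    exact hne N))

end act

end Pool.Agent.Q167.FE
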