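import Pool.Agent.Q167.FE.Loc

/-!
# Effective finite determination
-/

set_option autoImplicit false

open Finset AddMonoidAlgebra

namespace Pool.Agent.Q167.FE

open Pool.Agent.Q167.FD

variable {r m : ℕ}

/-- **Effective finite determination.** -/
theorem rigid_eff {Φ : Fin m → (Fin r → ℤ)} (hΦ : ∀ j, Φ j ≠ 0) {N : ℕ}
    (hN : (den Φ).coeff 0 = N) (hN0 : 0 < N) {δ : ℕ} (hδ : ∀ i, ∑ j, (Φ j i).natAbs ≤ δ)
    (hδ1 : 1 ≤ δ) {φ : (Fin r → ℤ) → ℤ} (hPD : PD fun a => (φ a : ℝ)) {r0 R : ℕ}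
    (hr0 : r0 = 2 * (N ^ 2 + 1) * δ)
    (hRR : 2 * ((2 * r0 + δ + 1) * (δ * N ^ 2 + 1) * δ + r0) ≤ R)
    (hR : ∀ a, nm a ≤ R → φ a = (den Φ).coeff a) :
    (∀ a, φ a = (den Φ).coeff a) ∨ ∃ a, a ≠ 0 ∧ |φ a| = φ 0 := by
  classical
  by_contra hcon
  push Not at hcon
  obtain ⟨⟨l, hl⟩, hno⟩ := hcon
  have hlR : R < nm l := by
    by_contra h
    exact hl (hR l (by omega))
  set M : ℕ := 2 * r0 + δ + 1 with hM
  set J : ℕ := δ * N ^ 2 + 1 with hJ
  have hMJ : 1 ≤ M * J := Nat.mul_pos (by omega) (by omega)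
  have hδM : M * J ≤ M * J * δ := Nat.le_mul_of_pos_right _ hδ1
  have hδR : δ ≤ R := by
    have h1 : δ ≤ M * J * δ := Nat.le_mul_of_pos_left _ hMJ
    omega
  have hD0 : ∀ a, δ < nm a → (den Φ).coeff a = 0 := by
    intro a ha
    by_contra h
    have := nm_den hδ h
    omega
  have hφ0 : φ 0 = N := by
    rw [hR 0 (by rw [nm_zero]; omega), hN]
  have hl0 : φ l ≠ 0 := by
    intro h
    apply hl
    rw [h, hD0 l (by omega)]
  -- the choice of the dilation
  obtain ⟨j, hj1, hjJ, hfree⟩ : ∃ j, 1 ≤ j ∧ j ≤ J ∧ ∀ c, (den Φ).coeff c ≠ 0 → c ≠ 0 → ∀ b,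
      nm b ≤ r0 → φ (l + (b - (M * j) • c)) = 0 := by
    by_contra hcon
    push Not at hcon
    choose! c hc1 hc2 b hb1 hb2 using hcon
    set v : ℕ → (Fin r → ℤ) := fun j => j • c j with hv
    -- the fibres
    have hfib : (Icc 1 J).card ≤ δ * ((Icc 1 J).image v).card := by
      apply card_le_mul_card_image
      intro w _
      have hmaps : ∀ j ∈ (Icc 1 J).filter (fun j => v j = w), nm (c j) ∈ Icc 1 δ := by
        intro j hj
        obtain ⟨hj1, -⟩ := mem_filter.1 hj
        obtain ⟨a1, a2⟩ := mem_Icc.1 hj1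
        rw [mem_Icc]
        exact ⟨nm_pos (hc2 j a1 a2), nm_den hδ (hc1 j a1 a2)⟩
      have h1 := card_le_card_of_injOn (fun j => nm (c j)) hmaps (by
        intro i hi j hj hij
        obtain ⟨hi1, hi2⟩ := mem_filter.1 (mem_coe.1 hi)
        obtain ⟨hj1, hj2⟩ := mem_filter.1 (mem_coe.1 hj)
        obtain ⟨a1, a2⟩ := mem_Icc.1 hi1
        beta_reduce at hij
        have h2 : i * nm (c i) = j * nm (c j) := by
          rw [← nm_smul, ← nm_smul]
          show nm (v i) = nm (v j)
          rw [hi2, hj2]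
        rw [← hij] at h2
        exact Nat.eq_of_mul_eq_mul_right (nm_pos (hc2 i a1 a2)) h2)
      rw [Nat.card_Icc] at h1
      omega
    -- representatives
    set V : Finset (Fin r → ℤ) := (Icc 1 J).image v with hV
    have hrep : ∀ w ∈ V, ∃ j, 1 ≤ j ∧ j ≤ J ∧ v j = w := by
      intro w hw
      obtain ⟨j, hj, rfl⟩ := mem_image.1 hw
      obtain ⟨a1, a2⟩ := mem_Icc.1 hj
      exact ⟨j, a1, a2, rfl⟩
    choose! jj hj1 hj2 hj3 using hrep
    set s : (Fin r → ℤ) → (Fin r → ℤ) := fun w => b (jj w) - M • w with hs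
    have hsφ : ∀ w ∈ V, φ (l + s w) ≠ 0 := by
      intro w hw
      have h1 := hb2 (jj w) (hj1 w hw) (hj2 w hw)
      have h2 : M • w = (M * jj w) • c (jj w) := by
        rw [mul_smul]
        congr 1
        exact (hj3 w hw).symm
      show φ (l + (b (jj w) - M • w)) ≠ 0
      rwa [h2]
    have hVnm : ∀ w ∈ V, nm w ≤ J * δ := by
      intro w hw
      rw [← hj3 w hw]
      show nm (jj w • c (jj w)) ≤ _
      rw [nm_smul]
      exact Nat.mul_le_mul (hj2 w hw) (nm_den hδ (hc1 _ (hj1 w hw) (hj2 w hw)))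
    have hsnm : ∀ w ∈ V, nm (s w) ≤ r0 + M * J * δ := by
      intro w hw
      have h1 := nm_sub (b (jj w)) (M • w)
      have h2 := hb1 (jj w) (hj1 w hw) (hj2 w hw)
      rw [nm_smul] at h1
      have h3 : M * nm w ≤ M * (J * δ) := Nat.mul_le_mul_left M (hVnm w hw)
      rw [← mul_assoc] at h3
      show nm (b (jj w) - M • w) ≤ _
      omega
    have hfar : ∀ w ∈ V, ∀ w' ∈ V, w ≠ w' → δ < nm (s w - s w') := by
      intro w hw w' hw' hne
      have h1 : M • (w' - w) = (s w - s w') - (b (jj w) - b (jj w')) := by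
        show M • (w' - w) = (b (jj w) - M • w - (b (jj w') - M • w')) - (b (jj w) - b (jj w'))
        rw [smul_sub]
        abel
      have h2 : M ≤ nm (M • (w' - w)) := by
        rw [nm_smul]
        exact Nat.le_mul_of_pos_right M (nm_pos (sub_ne_zero.2 (Ne.symm hne)))
      rw [h1] at h2
      have h3 := nm_sub (s w - s w') (b (jj w) - b (jj w'))
      have h4 := nm_sub (b (jj w)) (b (jj w'))
      have h5 := hb1 (jj w) (hj1 w hw) (hj2 w hw)
      have h6 := hb1 (jj w') (hj1 w' hw') (hj2 w' hw')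
      omega
    have hsinj : Set.InjOn s V := by
      intro w hw w' hw' hww
      by_contra hne
      have h1 := hfar w hw w' hw' hne
      rw [hww, sub_self, nm_zero] at h1
      omega
    have h1 := hPD.bessel l (V.image s) (fun d => if d = 0 then (N : ℝ) else 0) {0}
      (fun d hd => by
        rw [mem_singleton] at hd
        exact if_neg hd)
      (fun x hx y hy => by
        obtain ⟨w, hw, rfl⟩ := mem_image.1 hx
        obtain ⟨w', hw', rfl⟩ := mem_image.1 hy
        beta_reduce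
        by_cases hww : w = w'
        · rw [hww, sub_self, if_pos rfl, hφ0]
          simp
        · have h2 := hfar w hw w' hw' hww
          have h3 : nm (s w - s w') ≤ R := by
            have := nm_sub (s w) (s w')
            have := hsnm w hw
            have := hsnm w' hw'
            omega
          rw [if_neg (fun h => by rw [h, nm_zero] at h2; omega), hR _ h3, hD0 _ h2]
          simp) (L := N) (by exact_mod_cast hN0) (by simp)
    beta_reduce at h1
    rw [hφ0, sum_image hsinj] at h1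
    have h2 : ∑ w ∈ V, (1 : ℝ) ≤ ∑ w ∈ V, (φ (l + s w) : ℝ) ^ 2 := by
      refine sum_le_sum fun w hw => ?_
      have h3 : (1 : ℤ) ≤ φ (l + s w) ^ 2 := by
        have := hsφ w hw
        have : 0 < φ (l + s w) ^ 2 := by positivity
        omega
      exact_mod_cast h3
    rw [sum_const, nsmul_eq_mul, mul_one] at h2
    have h3 : (V.card : ℝ) ≤ (N : ℝ) * N := by
      refine h2.trans (h1.trans (le_of_eq ?_))
      push_cast
      ring
    have h4 : V.card ≤ N ^ 2 := by
      rw [sq]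
      exact_mod_cast h3
    rw [Nat.card_Icc] at hfib
    have h5 : δ * V.card ≤ δ * N ^ 2 := Nat.mul_le_mul_left δ h4
    omega
  have hMj : M * j ≤ M * J := Nat.mul_le_mul_left M hjJ
  have hMj1 : M ≤ M * j := Nat.le_mul_of_pos_right M hj1
  obtain ⟨b, hb, hbN⟩ := loc hΦ hN hN0 hδ hPD (k := M * j) (r0 := r0) (by omega) hr0.ge
    (fun a ha => hR a (by
      have h1 : (M * j - 1) * δ ≤ M * J * δ := Nat.mul_le_mul_right δ (by omega)
      omega)) l hl0 hfree
  refine hno (l + b) ?_ ?_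
  · intro h
    have h1 : l = -b := add_eq_zero_iff_eq_neg.1 h
    rw [h1, nm_neg] at hlR
    omega
  · rw [hbN, hφ0]

end Pool.Agent.Q167.FE
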