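import Pool.Agent.Q167.FE.Deg
import Pool.Agent.Q167.FE.Rig

/-!
# The effective criterion
-/

set_option autoImplicit false
set_option linter.unusedSectionVars false

namespace Pool.Agent.Q167.FE

open Filter Topology NumberField IsDedekindDomain Pool.Agent.W540.BE Pool.Agent.TH553.RS
  Pool.Agent.TH553.ST Pool.Agent.H341R2 Pool.Agent.Q167.FD

section

variable {g : ℕ}

theorem rt_sum (i : Fin g) : ∑ x : RI g, (FD.rt x i).natAbs ≤ 2 * g := by
  classical
  rw [Fintype.sum_sum_type, Fintype.sum_prod_type]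
  have h1 : ∀ p : {p : Fin g × Fin g // p.1 < p.2}, ∑ b : Bool, (FD.rt (Sum.inl (p, b)) i).natAbs =
      (if p.1.1 = i then 2 else 0) + (if p.1.2 = i then 2 else 0) := by
    rintro ⟨⟨a, b⟩, hab⟩
    rw [Fintype.sum_bool]
    unfold FD.rt
    simp only [Pi.add_apply, Pi.single_apply]
    have hne : a ≠ b := ne_of_lt hab
    by_cases h1 : a = i
    · have h2 : ¬ b = i := fun h => hne (h1.trans h.symm)
      rw [if_pos h1, if_neg h2, if_pos h1.symm, if_neg (Ne.symm h2), if_neg (Ne.symm h2)]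
      simp
    · by_cases h2 : b = i
      · rw [if_neg h1, if_pos h2, if_neg (Ne.symm h1), if_pos h2.symm, if_pos h2.symm]
        simp
      · rw [if_neg h1, if_neg h2, if_neg (Ne.symm h1), if_neg (Ne.symm h2), if_neg (Ne.symm h2)]
        simp
  rw [Finset.sum_congr rfl fun p _ => h1 p, Finset.sum_add_distrib]
  have h2 : ∑ p : {p : Fin g × Fin g // p.1 < p.2}, (if p.1.1 = i then 2 else 0) =
      2 * (Finset.univ.filter fun b : Fin g => i < b).card := by
    rw [← Finset.sum_filter, Finset.sum_const, smul_eq_mul, mul_comm]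
    congr 1
    refine Finset.card_bij (fun p _ => p.1.2) ?_ ?_ ?_
    · intro p hp
      have h3 := (Finset.mem_filter.1 hp).2
      rw [Finset.mem_filter]
      exact ⟨Finset.mem_univ _, h3 ▸ p.2⟩
    · intro p hp q hq hpq
      have h3 := (Finset.mem_filter.1 hp).2
      have h4 := (Finset.mem_filter.1 hq).2
      exact Subtype.ext (Prod.ext (h3.trans h4.symm) hpq)
    · intro b hb
      exact ⟨⟨(i, b), (Finset.mem_filter.1 hb).2⟩,
        Finset.mem_filter.2 ⟨Finset.mem_univ _, rfl⟩, rfl⟩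
  have h3 : ∑ p : {p : Fin g × Fin g // p.1 < p.2}, (if p.1.2 = i then 2 else 0) =
      2 * (Finset.univ.filter fun b : Fin g => b < i).card := by
    rw [← Finset.sum_filter, Finset.sum_const, smul_eq_mul, mul_comm]
    congr 1
    refine Finset.card_bij (fun p _ => p.1.1) ?_ ?_ ?_
    · intro p hp
      have h3 := (Finset.mem_filter.1 hp).2
      rw [Finset.mem_filter]
      exact ⟨Finset.mem_univ _, h3 ▸ p.2⟩
    · intro p hp q hq hpq
      have h3 := (Finset.mem_filter.1 hp).2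
      have h4 := (Finset.mem_filter.1 hq).2
      exact Subtype.ext (Prod.ext hpq (h3.trans h4.symm))
    · intro b hb
      exact ⟨⟨(b, i), (Finset.mem_filter.1 hb).2⟩,
        Finset.mem_filter.2 ⟨Finset.mem_univ _, rfl⟩, rfl⟩
  have h4 : ∑ x : Fin g, (FD.rt (Sum.inr x : RI g) i).natAbs = 2 := by
    rw [Finset.sum_eq_single i]
    · unfold FD.rt
      simp
    · intro j _ hj
      unfold FD.rt
      simp only
      rw [Pi.single_eq_of_ne (Ne.symm hj)]
      rfl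
    · intro h
      exact absurd (Finset.mem_univ i) h
  rw [h2, h3, h4]
  have h5 : (Finset.univ.filter fun b : Fin g => i < b).card +
      (Finset.univ.filter fun b : Fin g => b < i).card + 1 ≤ g := by
    have h6 : Disjoint (Finset.univ.filter fun b : Fin g => i < b)
        (Finset.univ.filter fun b : Fin g => b < i) := by
      rw [Finset.disjoint_left]
      intro x h1 h2
      exact absurd (Finset.mem_filter.1 h1).2 (not_lt.2 (Finset.mem_filter.1 h2).2.le)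
    have h7 : i ∉ (Finset.univ.filter fun b : Fin g => i < b) ∪
        (Finset.univ.filter fun b : Fin g => b < i) := by
      simp
    rw [← Finset.card_union_of_disjoint h6, ← Finset.card_insert_of_notMem h7]
    exact (Finset.card_le_univ _).trans (by rw [Fintype.card_fin])
  omega

theorem Ph_sum (i : Fin g) : ∑ j, (Ph g j i).natAbs ≤ 2 * g := by
  have h1 : ∑ j, (Ph g j i).natAbs = ∑ x : RI g, (FD.rt x i).natAbs := by
    unfold Ph
    exact Equiv.sum_comp (Fintype.equivFin (RI g)).symm fun x => (FD.rt x i).natAbs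
  rw [h1]
  exact rt_sum i

theorem two_le_wo (hg : 0 < g) : 2 ≤ wo g := by
  unfold wo
  have h1 : 2 ^ 1 ≤ 2 ^ g := Nat.pow_le_pow_right (by norm_num) hg
  have h2 := Nat.factorial_pos g
  nlinarith

theorem arith {G N : ℕ} (hG : 0 < G) (hN : 2 ≤ N) :
    2 * ((2 * (2 * (N ^ 2 + 1) * (2 * G)) + 2 * G + 1) * (2 * G * N ^ 2 + 1) * (2 * G) +
      2 * (N ^ 2 + 1) * (2 * G)) ≤ 100 * G ^ 3 * N ^ 4 := by
  obtain ⟨G, rfl⟩ : ∃ G', G = G' + 1 := ⟨G - 1, by omega⟩
  obtain ⟨N, rfl⟩ : ∃ N', N = N' + 2 := ⟨N - 2, by omega⟩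
  zify
  have h1 : (0 : ℤ) ≤ G := by positivity
  have h2 : (0 : ℤ) ≤ N := by positivity
  have h3 : 0 ≤ 100 * ((G : ℤ) + 1) ^ 3 * ((N : ℤ) + 2) ^ 4 -
      2 * ((2 * (2 * (((N : ℤ) + 2) ^ 2 + 1) * (2 * ((G : ℤ) + 1))) + 2 * ((G : ℤ) + 1) + 1) *
      (2 * ((G : ℤ) + 1) * ((N : ℤ) + 2) ^ 2 + 1) * (2 * ((G : ℤ) + 1)) +
      2 * (((N : ℤ) + 2) ^ 2 + 1) * (2 * ((G : ℤ) + 1))) := by
    ring_nf
    positivity
  linarith

theorem radius (hg : 0 < g) :
    2 * ((2 * (2 * (wo g ^ 2 + 1) * (2 * g)) + 2 * g + 1) * (2 * g * wo g ^ 2 + 1) * (2 * g) +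
      2 * (wo g ^ 2 + 1) * (2 * g)) ≤ 100 * g ^ 3 * wo g ^ 4 := arith hg (two_le_wo hg)

theorem rigid_sp (hg : 0 < g) {φ : (Fin g → ℤ) → ℤ} (hPD : PD fun a => (φ a : ℝ))
    (hR : ∀ a, nm a ≤ 100 * g ^ 3 * wo g ^ 4 → φ a = co (Ph g) a) :
    (∀ a, φ a = co (Ph g) a) ∨ ∃ a, a ≠ 0 ∧ |φ a| = φ 0 :=
  rigid_eff (Φ := Ph g) Ph_ne (N := wo g) co_zero wo_pos (δ := 2 * g) Ph_sum (by omega) hPD rfl
    (radius hg) hR

variable {K : Type} [Field K] [NumberField K] (θ : HeightOneSpectrum (𝓞 K) → Fin g → ℝ)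

/-- **The effective criterion.** -/
theorem crit_eff (hg : 0 < g) {m : (Fin g → ℕ) → ℤ}
    (hm : ∀ U : Ultrafilter ℝ, (U : Filter ℝ) ≤ 𝓝[>] 0 → ∀ n,
      M (W540.BE.nm K) U (fun v => chR n (θ v)) = m n) :
    (∀ n, (m n : ℝ) = weyl g (chR n)) ↔
      (∀ n, wd n ≤ 100 * (g * wo g) ^ 4 → (m n : ℝ) = weyl g (chR n)) ∧
        ∀ N : ℕ, 1 ≤ N → ¬ Cc θ N := by
  classical
  set U₀ : Ultrafilter ℝ := Ultrafilter.of (𝓝[>] 0) with hU₀
  have h₀ : (U₀ : Filter ℝ) ≤ 𝓝[>] 0 := Ultrafilter.of_le _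
  constructor
  · intro h
    exact ⟨fun n _ => h n, ((crit θ hg hm).1 h).2⟩
  · rintro ⟨h, hc⟩
    have h1 : PD (fun a => ((ph m a : ℤ) : ℝ)) := by
      have h2 : (fun a => ((ph m a : ℤ) : ℝ)) = fi (W540.BE.nm K) U₀ θ :=
        funext fun a => (fi_eq θ h₀ (hm U₀ h₀) a).symm
      rw [h2]
      exact fi_pd (sysF K) h₀ θ
    have h2 : ∀ a : Fin g → ℤ, nm a ≤ 100 * g ^ 3 * wo g ^ 4 → ph m a = co (Ph g) a := by
      intro a ha
      have h3 : ((ph m a : ℤ) : ℝ) = ((co (Ph g) a : ℤ) : ℝ) := by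
        rw [← weyl_ms, ← fi_eq θ h₀ (hm U₀ h₀) a]
        have h4 : ∑ j, (a j).natAbs ≤ 100 * (g * wo g) ^ 4 := by
          have h5 : ∑ j, (a j).natAbs ≤ ∑ _j : Fin g, 100 * g ^ 3 * wo g ^ 4 :=
            Finset.sum_le_sum fun j _ => (le_nm a j).trans ha
          refine h5.trans (le_of_eq ?_)
          rw [Finset.sum_const, Finset.card_univ, Fintype.card_fin, smul_eq_mul]
          ring
        exact eq_WS (M_mj (sysF K) h₀ θ) weyl_mj (fun n hn => by
          rw [hm U₀ h₀ n]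
          exact h n hn) (WS_mono h4 (ms_mem_WS a))
      exact_mod_cast h3
    rcases rigid_sp hg h1 h2 with h3 | ⟨a, ha0, ha⟩
    · intro n
      rw [← hm U₀ h₀ n]
      refine span_eq (M_mj (sysF K) h₀ θ) weyl_mj (fun a => ?_) (chR_mem n)
      rw [weyl_ms, ← h3, ← fi_eq θ h₀ (hm U₀ h₀) a]
      rfl
    · exfalso
      obtain ⟨j₀, hj₀⟩ : ∃ j, a j ≠ 0 := by
        by_contra h4
        push Not at h4
        exact ha0 (funext h4)
      refine hc (4 * (a j₀).natAbs) (by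
        have := Int.natAbs_pos.2 hj₀
        omega) fun U hU δ hδ => ?_
      refine conc_of (sysF K) hU θ j₀ ?_ hδ
      rw [fi_eq θ hU (hm U hU) a, ← fi_zero (sysF K) hU θ, fi_eq θ hU (hm U hU) 0]
      exact_mod_cast ha

end

end Pool.Agent.Q167.FE
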