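import Pool.Agent.Q167.FD.Crit

/-!
# The degrees of the characters in the expansions of the orbit sums
-/

set_option autoImplicit false

open Finset MvPolynomial

namespace Pool.Agent.Q167.FE

open Pool.Agent.Q167.FD

section

variable {g : ℕ}

/-- the degree of a tensor product of exterior powers -/
def wd (n : Fin g → ℕ) : ℕ := ∑ k : Fin g, ((k : ℕ) + 1) * n k

theorem wd_add (n n' : Fin g → ℕ) : wd (n + n') = wd n + wd n' := by
  unfold wd
  rw [← sum_add_distrib]
  refine sum_congr rfl fun k _ => ?_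
  rw [Pi.add_apply]
  ring

theorem chR_add (n n' : Fin g → ℕ) : chR (n + n') = chR n * chR n' := by
  funext t
  rw [Pi.mul_apply]
  unfold chR
  rw [← prod_mul_distrib]
  refine prod_congr rfl fun k _ => ?_
  rw [Pi.add_apply, pow_add]

/-- the span of the characters of bounded degree -/
noncomputable def WS (g d : ℕ) : Submodule ℤ ((Fin g → ℝ) → ℝ) :=
  Submodule.span ℤ {f | ∃ n : Fin g → ℕ, wd n ≤ d ∧ f = chR n}

theorem chR_mem_WS {n : Fin g → ℕ} {d : ℕ} (h : wd n ≤ d) : chR n ∈ WS g d :=
  Submodule.subset_span ⟨n, h, rfl⟩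

theorem WS_mono {d e : ℕ} (h : d ≤ e) : WS g d ≤ WS g e :=
  Submodule.span_mono fun _ ⟨n, hn, hf⟩ => ⟨n, hn.trans h, hf⟩

theorem one_mem_WS (d : ℕ) : (1 : (Fin g → ℝ) → ℝ) ∈ WS g d := by
  have h1 : (1 : (Fin g → ℝ) → ℝ) = chR 0 := by
    funext t
    unfold chR
    simp
  rw [h1]
  refine chR_mem_WS ?_
  unfold wd
  simp

theorem WS_mul {d e : ℕ} {f h : (Fin g → ℝ) → ℝ} (hf : f ∈ WS g d) (hh : h ∈ WS g e) :
    f * h ∈ WS g (d + e) := by
  unfold WS at hf hh
  induction hf using Submodule.span_induction with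
  | mem x hx =>
    obtain ⟨n, hn, rfl⟩ := hx
    induction hh using Submodule.span_induction with
    | mem y hy =>
      obtain ⟨n', hn', rfl⟩ := hy
      rw [← chR_add]
      refine chR_mem_WS ?_
      rw [wd_add]
      omega
    | zero =>
      rw [mul_zero]
      exact zero_mem _
    | add x y _ _ hx hy =>
      rw [mul_add]
      exact add_mem hx hy
    | smul a x _ hx =>
      rw [mul_smul_comm]
      exact Submodule.smul_mem _ _ hx
  | zero =>
    rw [zero_mul]
    exact zero_mem _
  | add x y _ _ hx hy =>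
    rw [add_mul]
    exact add_mem hx hy
  | smul a x _ hx =>
    rw [smul_mul_assoc]
    exact Submodule.smul_mem _ _ hx

theorem WS_pow {d : ℕ} {f : (Fin g → ℝ) → ℝ} (hf : f ∈ WS g d) (n : ℕ) : f ^ n ∈ WS g (d * n) := by
  induction n with
  | zero =>
    rw [pow_zero]
    exact one_mem_WS _
  | succ n ih =>
    rw [pow_succ, mul_add, mul_one]
    exact WS_mul ih hf

theorem WS_prod {ι : Type} (s : Finset ι) (d : ι → ℕ) (f : ι → (Fin g → ℝ) → ℝ)
    (h : ∀ i ∈ s, f i ∈ WS g (d i)) : ∏ i ∈ s, f i ∈ WS g (∑ i ∈ s, d i) := by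
  classical
  induction s using Finset.induction_on with
  | empty =>
    rw [prod_empty]
    exact one_mem_WS _
  | insert i s hi ih =>
    rw [prod_insert hi, sum_insert hi]
    exact WS_mul (h i (mem_insert_self _ _)) (ih fun j hj => h j (mem_insert_of_mem hj))

theorem Er_mem_WS (k : Fin g) : Er (g := g) ((k : ℕ) + 1) ∈ WS g ((k : ℕ) + 1) := by
  classical
  have h1 : Er (g := g) ((k : ℕ) + 1) = chR (Pi.single k 1) := by
    funext t
    unfold chR
    rw [prod_eq_single k]
    · rw [Pi.single_eq_same, pow_one]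
    · intro j _ hj
      rw [Pi.single_eq_of_ne hj, pow_zero]
    · intro h
      exact absurd (mem_univ k) h
  rw [h1]
  refine chR_mem_WS ?_
  unfold wd
  rw [sum_eq_single k]
  · rw [Pi.single_eq_same, mul_one]
  · intro j _ hj
    rw [Pi.single_eq_of_ne hj, mul_zero]
  · intro h
    exact absurd (mem_univ k) h

theorem esymm_mem_WS (K : ℕ) (hK : K ≤ g) :
    (fun t : Fin g → ℝ => aeval (yy t) (esymm (Fin g) ℤ K)) ∈ WS g K := by
  induction K using Nat.strong_induction_on with
  | _ K ih =>
    rcases Nat.eq_zero_or_pos K with rfl | hK0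
    · have : (fun t : Fin g → ℝ => aeval (yy t) (esymm (Fin g) ℤ 0)) = 1 := by
        funext t
        simp
      rw [this]
      exact one_mem_WS _
    · have h1 : (fun t : Fin g → ℝ => aeval (yy t) (esymm (Fin g) ℤ K)) =
          Er (g := g) K - ∑ k ∈ range K, (cf g K k) •
            (fun t : Fin g → ℝ => aeval (yy t) (esymm (Fin g) ℤ k)) := by
        funext t
        rw [Pi.sub_apply, Finset.sum_apply]
        unfold Er
        rw [E_eq, Complex.ofReal_re]
        have h3 : ∑ k ∈ range (g + 1), (cf g K k : ℝ) * aeval (yy t) (esymm (Fin g) ℤ k) =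
            ∑ k ∈ range (K + 1), (cf g K k : ℝ) * aeval (yy t) (esymm (Fin g) ℤ k) := by
          symm
          refine sum_subset (range_subset_range.2 (by omega)) fun k _ hk => ?_
          rw [mem_range] at hk
          rw [cf_of_lt (by omega), Int.cast_zero, zero_mul]
        rw [h3, sum_range_succ, cf_self, Int.cast_one, one_mul]
        have h4 : ∀ k ∈ range K, ((cf g K k) • (fun t : Fin g → ℝ =>
            aeval (yy t) (esymm (Fin g) ℤ k))) t =
            (cf g K k : ℝ) * aeval (yy t) (esymm (Fin g) ℤ k) := by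
          intro k _
          rw [Pi.smul_apply, zsmul_eq_mul]
        rw [sum_congr rfl h4]
        ring
      rw [h1]
      refine sub_mem ?_ (sum_mem fun k hk => ?_)
      · have h2 := Er_mem_WS (g := g) ⟨K - 1, by omega⟩
        simp only at h2
        rwa [Nat.sub_add_cancel hK0] at h2
      · rw [mem_range] at hk
        exact Submodule.smul_mem _ _ (WS_mono hk.le (ih k hk (by omega)))

theorem esymm_hom (K : ℕ) : (esymm (Fin g) ℤ K).IsHomogeneous K := by
  unfold esymm
  refine IsHomogeneous.sum _ _ _ fun S hS => ?_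
  have h1 := IsHomogeneous.prod S (fun i => (X i : MvPolynomial (Fin g) ℤ)) (fun _ => 1)
    (fun i _ => isHomogeneous_X ℤ i)
  rw [sum_const, (mem_powersetCard.1 hS).2, smul_eq_mul, mul_one] at h1
  exact h1

/-- symmetric polynomials of bounded degree -/
theorem symm_mem_WS {P : MvPolynomial (Fin g) ℤ} (hP : P.IsSymmetric) {d : ℕ}
    (hd : P.totalDegree ≤ d) : (fun t : Fin g → ℝ => aeval (yy t) P) ∈ WS g d := by
  classical
  obtain ⟨Q, hQ⟩ := esymmAlgHom_surjective (σ := Fin g) ℤ (n := g) (by simp)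
    (⟨P, hP⟩ : symmetricSubalgebra (Fin g) ℤ)
  set es : Fin g → MvPolynomial (Fin g) ℤ := fun i => esymm (Fin g) ℤ (i + 1) with hes
  have h1 : P = ∑ s ∈ Q.support, (Q.coeff s) • ∏ i, es i ^ s i := by
    have h2 : P = aeval es Q := by
      rw [hes, ← esymmAlgHom_apply, hQ]
    rw [h2, aeval_def, eval₂_eq']
    refine sum_congr rfl fun s _ => ?_
    rw [Algebra.smul_def]
  have hhom : ∀ s : Fin g →₀ ℕ, (∏ i, es i ^ s i).IsHomogeneous (wd s) := by
    intro s
    unfold wd
    exact IsHomogeneous.prod _ _ _ fun i _ => (esymm_hom _).pow _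
  have h2 : P = ∑ s ∈ Q.support, (Q.coeff s) •
      (if wd s ≤ P.totalDegree then ∏ i, es i ^ s i else 0) := by
    conv_lhs => rw [← sum_homogeneousComponent P]
    have h3 : ∀ i, homogeneousComponent i P = ∑ s ∈ Q.support, (Q.coeff s) •
        (if i = wd s then ∏ i, es i ^ s i else 0) := by
      intro i
      conv_lhs => rw [h1]
      rw [map_sum]
      refine sum_congr rfl fun s _ => ?_
      rw [map_smul, homogeneousComponent_of_mem
        ((mem_homogeneousSubmodule _ _).2 (hhom s))]
    rw [sum_congr rfl fun i _ => h3 i, sum_comm]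
    refine sum_congr rfl fun s _ => ?_
    rw [← smul_sum, sum_ite_eq']
    congr 1
    simp only [mem_range]
    by_cases h4 : wd s ≤ P.totalDegree
    · rw [if_pos h4, if_pos (by omega)]
    · rw [if_neg h4, if_neg (by omega)]
  have h3 : (fun t : Fin g → ℝ => aeval (yy t) P) = ∑ s ∈ Q.support, (Q.coeff s) •
      (if wd s ≤ P.totalDegree then
        ∏ i, (fun t : Fin g → ℝ => aeval (yy t) (es i)) ^ s i else 0) := by
    funext t
    conv_lhs => rw [h2]
    rw [map_sum, Finset.sum_apply]
    refine sum_congr rfl fun s _ => ?_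
    rw [map_smul, Pi.smul_apply]
    congr 1
    split_ifs
    · rw [map_prod, Finset.prod_apply]
      refine prod_congr rfl fun i _ => ?_
      rw [map_pow, Pi.pow_apply]
    · rw [map_zero]
      rfl
  rw [h3]
  refine sum_mem fun s _ => Submodule.smul_mem _ _ ?_
  split_ifs with h4
  · refine WS_mono (h4.trans hd) ?_
    unfold wd
    exact WS_prod _ _ _ fun i _ => WS_pow (esymm_mem_WS _ (by have := i.2; omega)) _
  · exact zero_mem _

theorem deg_C (n : ℕ) : (Polynomial.Chebyshev.C ℤ (n : ℤ)).natDegree ≤ n := by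
  induction n using Nat.strong_induction_on with
  | _ n ih =>
    rcases n with _ | _ | n
    · rw [Nat.cast_zero, Polynomial.Chebyshev.C_zero]
      exact (Polynomial.natDegree_ofNat 2).le
    · rw [zero_add, Nat.cast_one, Polynomial.Chebyshev.C_one]
      exact Polynomial.natDegree_X_le
    · have h1 : ((n + 1 + 1 : ℕ) : ℤ) = (n : ℤ) + 2 := by push_cast; ring
      rw [h1, Polynomial.Chebyshev.C_add_two]
      refine (Polynomial.natDegree_sub_le _ _).trans (max_le ?_ ?_)
      · refine Polynomial.natDegree_mul_le.trans ?_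
        have h2 := ih (n + 1) (by omega)
        push_cast at h2
        have h3 := Polynomial.natDegree_X_le (R := ℤ)
        omega
      · exact (ih n (by omega)).trans (by omega)

theorem deg_C' (a : ℤ) : (Polynomial.Chebyshev.C ℤ a).natDegree ≤ a.natAbs := by
  rw [← Polynomial.Chebyshev.C_natAbs]
  exact deg_C _

theorem deg_aeval (p : Polynomial ℤ) (i : Fin g) :
    (Polynomial.aeval (X i : MvPolynomial (Fin g) ℤ) p).totalDegree ≤ p.natDegree := by
  rw [Polynomial.aeval_eq_sum_range]
  refine totalDegree_finsetSum_le fun k hk => ?_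
  refine (totalDegree_smul_le _ _).trans ?_
  rw [totalDegree_X_pow]
  have := mem_range.1 hk
  omega

/-- **The orbit sums are integral combinations of characters of bounded degree.** -/
theorem ms_mem_WS (a : Fin g → ℤ) : ms (g := g) a ∈ WS g (∑ j, (a j).natAbs) := by
  set P : MvPolynomial (Fin g) ℤ := ∑ σ : Equiv.Perm (Fin g),
    ∏ j, Polynomial.aeval (X (σ j)) (Polynomial.Chebyshev.C ℤ (a j)) with hP
  have hs : P.IsSymmetric := by
    intro τ
    rw [hP, map_sum]
    refine Fintype.sum_equiv (Equiv.mulLeft τ) _ _ fun σ => ?_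
    rw [map_prod]
    refine prod_congr rfl fun j _ => ?_
    rw [← Polynomial.aeval_algHom_apply, rename_X]
    rfl
  have h1 : ms (g := g) a = fun t => aeval (yy t) P := by
    funext t
    unfold ms
    rw [hP, map_sum]
    refine sum_congr rfl fun σ _ => ?_
    rw [map_prod]
    refine prod_congr rfl fun j _ => ?_
    rw [← Polynomial.aeval_algHom_apply, aeval_X, ← Polynomial.Chebyshev.C_two_mul_real_cos]
    unfold yy
    rw [← Polynomial.Chebyshev.map_C (Int.castRingHom ℝ), Polynomial.eval_map,
      Polynomial.aeval_def]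
    rfl
  rw [h1]
  refine symm_mem_WS hs ?_
  rw [hP]
  refine totalDegree_finsetSum_le fun σ _ => ?_
  refine (totalDegree_finsetProd _ _).trans (sum_le_sum fun j _ => ?_)
  exact (deg_aeval _ _).trans (deg_C' _)

/-- functionals with the same values at the characters of bounded degree -/
theorem eq_WS {J J' : ((Fin g → ℝ) → ℝ) → ℝ} (hJ : Mj J) (hJ' : Mj J') {d : ℕ}
    (h : ∀ n : Fin g → ℕ, wd n ≤ d → J (chR n) = J' (chR n)) {f : (Fin g → ℝ) → ℝ}
    (hf : f ∈ WS g d) : J f = J' f := by
  have key : Bc f ∧ J f = J' f := by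
    unfold WS at hf
    induction hf using Submodule.span_induction with
    | mem x hx =>
      obtain ⟨n, hn, rfl⟩ := hx
      exact ⟨chR_bc n, h n hn⟩
    | zero =>
      have h1 : (0 : (Fin g → ℝ) → ℝ) = fun _ => 0 := rfl
      rw [h1, hJ.zero, hJ'.zero]
      exact ⟨Bc.const 0, rfl⟩
    | add x y _ _ hx hy =>
      have h1 : x + y = fun t => x t + y t := rfl
      refine ⟨hx.1.add hy.1, ?_⟩
      rw [h1, hJ.add _ _ hx.1 hy.1, hJ'.add _ _ hx.1 hy.1, hx.2, hy.2]
    | smul a x _ hx =>
      have h1 : a • x = fun t => (a : ℝ) * x t := by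
        funext t
        rw [Pi.smul_apply, zsmul_eq_mul]
      refine ⟨by rw [h1]; exact hx.1.smul _, ?_⟩
      rw [h1, hJ.smul _ _ hx.1, hJ'.smul _ _ hx.1, hx.2]
  exact key.2

end

end Pool.Agent.Q167.FE
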