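import Pool.Agent.Q167.FE.Sup

/-!
# The local theorem
-/

set_option autoImplicit false

open Finset AddMonoidAlgebra

namespace Pool.Agent.Q167.FE

open Pool.Agent.Q167.FD

variable {r m : ℕ}

/-- the finite part of a function -/
noncomputable def mk (S : Finset (Fin r → ℤ)) (f : (Fin r → ℤ) → ℤ) : ℤ[Fin r → ℤ] :=
  .ofCoeff (Finsupp.onFinset S (fun b => if b ∈ S then f b else 0) (by
    intro b hb
    by_contra h
    rw [if_neg h] at hb
    exact hb rfl))

theorem mk_coeff (S : Finset (Fin r → ℤ)) (f : (Fin r → ℤ) → ℤ) (b : Fin r → ℤ) :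
    (mk S f).coeff b = if b ∈ S then f b else 0 := rfl

theorem smul_inj {v : Fin r → ℤ} (hv : v ≠ 0) (N k : ℕ) (h : N • v = k • v) : N = k := by
  obtain ⟨i, hi⟩ : ∃ i, v i ≠ 0 := by
    by_contra h1
    push Not at h1
    exact hv (funext h1)
  have h1 := congrFun h i
  simp only [Pi.smul_apply, nsmul_eq_mul] at h1
  exact_mod_cast mul_right_cancel₀ hi h1

theorem dvd_den {Φ : Fin m → (Fin r → ℤ)} (hΦ : ∀ j, Φ j ≠ 0) {n : ℤ} {A : ℤ[Fin r → ℤ]}
    (h : ∀ b, n ∣ (den Φ * A).coeff b) (b : Fin r → ℤ) : n ∣ A.coeff b := by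
  have key : ∀ (s : Finset (Fin m)) (A : ℤ[Fin r → ℤ]), (∀ b, n ∣ ((∏ j ∈ s,
      ((1 - single (Φ j) 1) * (1 - single (-Φ j) 1))) * A).coeff b) → ∀ b, n ∣ A.coeff b := by
    intro s
    induction s using Finset.induction_on with
    | empty =>
      intro A h
      rw [prod_empty] at h
      simpa using h
    | insert j s hj ih =>
      intro A h
      rw [prod_insert hj, mul_assoc, mul_assoc] at h
      apply ih
      apply dvd_of_mul (smul_inj (neg_ne_zero.2 (hΦ j)))
      exact dvd_of_mul (smul_inj (hΦ j)) h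
  exact key univ A h b

/-- the coefficients of the dilated density near the origin -/
theorem dk_coeff {k : ℕ} (Φ : Fin m → (Fin r → ℤ)) {d : Fin r → ℤ} (hd : nm d < k) :
    (den fun j => k • Φ j).coeff d = if d = 0 then (den Φ).coeff 0 else 0 := by
  have h1 : (den fun j => k • Φ j).coeff d =
      ∑ c ∈ (den Φ).coeff.support, (den Φ).coeff c * (1 : ℤ[Fin r → ℤ]).coeff (d - k • c) := by
    have h2 : (den fun j => k • Φ j).coeff d = ((den fun j => k • Φ j) * 1).coeff d := by
      rw [mul_one]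
    rw [h2, coeff_mul, den_smul, ac_map]
    rfl
  have h3 : ∀ c : Fin r → ℤ, d - k • c = 0 → c = 0 := by
    intro c hc
    by_contra hc0
    have h4 := nm_pos hc0
    have h5 : d = k • c := sub_eq_zero.1 hc
    rw [h5, nm_smul] at hd
    have := Nat.le_mul_of_pos_right k h4
    omega
  have h4 : ∀ x : Fin r → ℤ, x ≠ 0 → (1 : ℤ[Fin r → ℤ]).coeff x = 0 := by
    intro x hx
    rw [one_def, coeff_single, Finsupp.single_apply, if_neg (Ne.symm hx)]
  rw [h1]
  split_ifs with hd0
  · subst hd0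
    rw [sum_eq_single 0]
    · rw [smul_zero, sub_zero, one_def, coeff_single, Finsupp.single_apply, if_pos rfl, mul_one]
    · intro c _ hc
      rw [h4 _ (fun h => hc (h3 c h)), mul_zero]
    · intro h
      rw [Finsupp.notMem_support_iff] at h
      rw [h, zero_mul]
  · refine sum_eq_zero fun c _ => ?_
    rw [h4, mul_zero]
    intro h
    have h5 := h3 c h
    rw [h5, smul_zero, sub_zero] at h
    exact hd0 h

/-- Bessel's inequality for the smoothed function -/
theorem bes {Φ : Fin m → (Fin r → ℤ)} {N : ℕ} (hN : (den Φ).coeff 0 = N) (hN0 : 0 < N) {δ : ℕ}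
    (hδ : ∀ i, ∑ j, (Φ j i).natAbs ≤ δ) {φ : (Fin r → ℤ) → ℤ} (hPD : PD fun a => (φ a : ℝ))
    {k r0 : ℕ} (hk : 2 * r0 < k) (hR : ∀ a, nm a ≤ 2 * r0 + (k - 1) * δ → φ a = (den Φ).coeff a)
    (l : Fin r → ℤ) :
    ∑ b ∈ bo r r0, (ac (Fk k Φ * ng (Fk k Φ)) φ (l + b)) ^ 2 ≤ (N : ℤ) ^ 2 := by
  classical
  have h0 : ∀ d, nm d ≤ 2 * r0 → ac (Fk k Φ * ng (Fk k Φ)) φ d = if d = 0 then (N : ℤ) else 0 := by
    intro d hd
    have h1 : ac (Fk k Φ * ng (Fk k Φ)) φ d =
        ac (Fk k Φ * ng (Fk k Φ)) (fun x => (den Φ).coeff x) d := by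
      rw [ac_sm, ac_sm]
      refine sum_congr rfl fun y hy => sum_congr rfl fun x hx => ?_
      rw [hR]
      rw [Finsupp.mem_support_iff] at hx hy
      have h2 := nm_Fk (k := k) hδ hx hy
      have h3 : d - y + x = d + (x - y) := by abel
      rw [h3]
      exact (nm_add _ _).trans (add_le_add hd h2)
    rw [h1, ← coeff_mul, mul_comm, den_Fk, dk_coeff Φ (by omega), hN]
  have h1 := (pd_sm (Fk k Φ) hPD).bessel l (bo r r0) (fun d => if d = 0 then (N : ℝ) else 0) {0}
    (fun d hd => by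
      rw [mem_singleton] at hd
      exact if_neg hd)
    (fun a ha b hb => by
      have h2 : nm (a - b) ≤ 2 * r0 := by
        have := nm_sub a b
        have := mem_bo.1 ha
        have := mem_bo.1 hb
        omega
      beta_reduce
      rw [h0 _ h2]
      split_ifs <;> simp) (L := N) (by exact_mod_cast hN0) (by simp)
  beta_reduce at h1
  rw [h0 0 (by rw [nm_zero]; omega), if_pos rfl] at h1
  have h2 : ((∑ b ∈ bo r r0, (ac (Fk k Φ * ng (Fk k Φ)) φ (l + b)) ^ 2 : ℤ) : ℝ) ≤
      (((N : ℤ) ^ 2 : ℤ) : ℝ) := by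
    push_cast
    refine h1.trans (le_of_eq ?_)
    push_cast
    ring
  exact_mod_cast h2

/-- **The local theorem.** -/
theorem loc {Φ : Fin m → (Fin r → ℤ)} (hΦ : ∀ j, Φ j ≠ 0) {N : ℕ} (hN : (den Φ).coeff 0 = N)
    (hN0 : 0 < N) {δ : ℕ} (hδ : ∀ i, ∑ j, (Φ j i).natAbs ≤ δ) {φ : (Fin r → ℤ) → ℤ}
    (hPD : PD fun a => (φ a : ℝ)) {k r0 : ℕ} (hk : 2 * r0 < k) (hr0 : 2 * (N ^ 2 + 1) * δ ≤ r0)
    (hR : ∀ a, nm a ≤ 2 * r0 + (k - 1) * δ → φ a = (den Φ).coeff a)
    (l : Fin r → ℤ) (hl : φ l ≠ 0)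
    (hfree : ∀ c, (den Φ).coeff c ≠ 0 → c ≠ 0 → ∀ b, nm b ≤ r0 → φ (l + (b - k • c)) = 0) :
    ∃ b, nm b ≤ r0 ∧ |φ (l + b)| = N := by
  classical
  set ψ : (Fin r → ℤ) → ℤ := fun b => φ (l + b) with hψ
  set h : (Fin r → ℤ) → ℤ := fun b => ac (Fk k Φ * ng (Fk k Φ)) φ (l + b) with hh
  have hhψ : ac (Fk k Φ * ng (Fk k Φ)) ψ = h := by
    funext b
    rw [hh]
    beta_reduce
    rw [ac_apply, ac_apply]
    refine sum_congr rfl fun c _ => ?_
    rw [hψ]
    beta_reduce
    rw [add_sub_assoc]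
  have hB : ∑ b ∈ bo r r0, h b ^ 2 ≤ (N : ℤ) ^ 2 := bes hN hN0 hδ hPD hk hR l
  -- a free annulus
  obtain ⟨i, hiN, hi⟩ : ∃ i : ℕ, i ≤ N ^ 2 ∧ ∀ b, 2 * i * δ < nm b → nm b ≤ 2 * (i + 1) * δ →
      h b = 0 := by
    by_contra hcon
    push Not at hcon
    choose! p hp1 hp2 hp3 using hcon
    have hinj : Set.InjOn p (range (N ^ 2 + 1)) := by
      intro i hi j hj hij
      have hi' : i ≤ N ^ 2 := by
        have := mem_range.1 (mem_coe.1 hi)
        omega
      have hj' : j ≤ N ^ 2 := by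
        have := mem_range.1 (mem_coe.1 hj)
        omega
      have a1 := hp1 i hi'
      have a2 := hp2 i hi'
      have a3 := hp1 j hj'
      have a4 := hp2 j hj'
      rw [hij] at a1 a2
      have a5 : 2 * i * δ < 2 * (j + 1) * δ := lt_of_lt_of_le a1 a4
      have a6 : 2 * j * δ < 2 * (i + 1) * δ := lt_of_lt_of_le a3 a2
      have a7 := lt_of_mul_lt_mul_right a5 (Nat.zero_le δ)
      have a8 := lt_of_mul_lt_mul_right a6 (Nat.zero_le δ)
      omega
    have hsub : (range (N ^ 2 + 1)).image p ⊆ bo r r0 := by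
      intro b hb
      obtain ⟨j, hj, rfl⟩ := mem_image.1 hb
      have hj' : j ≤ N ^ 2 := by
        have := mem_range.1 hj
        omega
      rw [mem_bo]
      refine (hp2 j hj').trans (le_trans ?_ hr0)
      exact Nat.mul_le_mul_right δ (by omega)
    have h1 : ∑ b ∈ (range (N ^ 2 + 1)).image p, (1 : ℤ) ≤ ∑ b ∈ (range (N ^ 2 + 1)).image p, h b ^ 2 := by
      refine sum_le_sum fun b hb => ?_
      obtain ⟨j, hj, rfl⟩ := mem_image.1 hb
      have hj' : j ≤ N ^ 2 := by
        have := mem_range.1 hj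
        omega
      have h2 := hp3 j hj'
      have h3 : 0 < h (p j) ^ 2 := by positivity
      omega
    have h2 : ∑ b ∈ (range (N ^ 2 + 1)).image p, h b ^ 2 ≤ ∑ b ∈ bo r r0, h b ^ 2 :=
      sum_le_sum_of_subset_of_nonneg hsub fun _ _ _ => sq_nonneg _
    rw [sum_const, card_image_of_injOn hinj, card_range, nsmul_eq_mul, mul_one] at h1
    push_cast at h1
    linarith
  have hir : 2 * (i + 1) * δ ≤ r0 := by
    refine le_trans ?_ hr0
    exact Nat.mul_le_mul_right δ (by omega)
  set ρ : ℕ := (2 * i + 1) * δ with hρ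
  have e1 : ρ + δ = 2 * (i + 1) * δ := by rw [hρ]; ring
  have e2 : 2 * i * δ + δ = ρ := by rw [hρ]; ring
  set H : ℤ[Fin r → ℤ] := mk (bo r (2 * i * δ)) h with hH
  have hHh : ∀ b, nm b ≤ ρ + δ → H.coeff b = h b := by
    intro b hb
    rw [hH, mk_coeff]
    split_ifs with h1
    · rfl
    · rw [mem_bo] at h1
      exact (hi b (by omega) (by omega)).symm
  have hH0 : ∀ b, 2 * i * δ < nm b → H.coeff b = 0 := by
    intro b hb
    rw [hH, mk_coeff, if_neg]
    rw [mem_bo]
    omega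
  -- the equation
  have hC : ∀ b, (den Φ * H).coeff b = if nm b ≤ ρ then (N : ℤ) * ψ b else 0 := by
    intro b
    rw [coeff_mul, ac_apply]
    split_ifs with hb
    · have h1 : ∑ c ∈ (den Φ).coeff.support, (den Φ).coeff c * H.coeff (b - c) = ac (den Φ) h b := by
        rw [ac_apply]
        refine sum_congr rfl fun c hc => ?_
        rw [hHh]
        have h2 := nm_den hδ (Finsupp.mem_support_iff.1 hc)
        have h3 := nm_sub b c
        omega
      rw [h1, ← hhψ, ac_den]
      rw [sum_eq_single 0]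
      · rw [hN, smul_zero, sub_zero]
      · intro c hc hc0
        have h2 := hfree c (Finsupp.mem_support_iff.1 hc) hc0 b (by omega)
        rw [hψ]
        beta_reduce
        rw [h2, mul_zero]
      · intro h2
        rw [Finsupp.notMem_support_iff] at h2
        rw [h2, zero_mul]
    · refine sum_eq_zero fun c hc => ?_
      rw [hH0, mul_zero]
      have h2 := nm_den hδ (Finsupp.mem_support_iff.1 hc)
      have h3 := nm_sub' b c
      omega
  -- divisibility
  have hdv : ∀ b, (N : ℤ) ∣ H.coeff b := by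
    apply dvd_den hΦ
    intro b
    rw [hC]
    split_ifs
    · exact dvd_mul_right _ _
    · exact dvd_zero _
  have hN0' : (0 : ℤ) < N := by exact_mod_cast hN0
  set q : (Fin r → ℤ) → ℤ := fun b => H.coeff b / N with hq
  have hqH : ∀ b, H.coeff b = N * q b := fun b => (Int.mul_ediv_cancel' (hdv b)).symm
  have hqsum : ∀ S : Finset (Fin r → ℤ), S ⊆ bo r (2 * i * δ) → ∑ b ∈ S, q b ^ 2 ≤ 1 := by
    intro S hS
    have h1 : ∑ b ∈ S, H.coeff b ^ 2 ≤ (N : ℤ) ^ 2 := by
      refine le_trans ?_ hB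
      have h2 : ∑ b ∈ S, H.coeff b ^ 2 = ∑ b ∈ S, h b ^ 2 := by
        refine sum_congr rfl fun b hb => ?_
        rw [hHh]
        have := mem_bo.1 (hS hb)
        omega
      rw [h2]
      refine sum_le_sum_of_subset_of_nonneg (fun b hb => ?_) fun _ _ _ => sq_nonneg _
      have := mem_bo.1 (hS hb)
      rw [mem_bo]
      have h3 : 2 * i * δ ≤ 2 * (i + 1) * δ := Nat.mul_le_mul_right δ (by omega)
      omega
    have h2 : ∑ b ∈ S, H.coeff b ^ 2 = (N : ℤ) ^ 2 * ∑ b ∈ S, q b ^ 2 := by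
      rw [mul_sum]
      refine sum_congr rfl fun b _ => ?_
      rw [hqH]
      ring
    rw [h2] at h1
    have h3 : (0 : ℤ) < (N : ℤ) ^ 2 := by positivity
    nlinarith
  have hCq : ∀ b, ∑ c ∈ (den Φ).coeff.support, (den Φ).coeff c * q (b - c) =
      if nm b ≤ ρ then ψ b else 0 := by
    intro b
    have h1 := hC b
    rw [coeff_mul, ac_apply] at h1
    have h2 : ∑ c ∈ (den Φ).coeff.support, (den Φ).coeff c * H.coeff (b - c) =
        N * ∑ c ∈ (den Φ).coeff.support, (den Φ).coeff c * q (b - c) := by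
      rw [mul_sum]
      refine sum_congr rfl fun c _ => ?_
      rw [hqH]
      ring
    rw [h2] at h1
    have h3 : (N : ℤ) * ∑ c ∈ (den Φ).coeff.support, (den Φ).coeff c * q (b - c) =
        N * if nm b ≤ ρ then ψ b else 0 := by
      rw [h1]
      split_ifs
      · rfl
      · rw [mul_zero]
    exact mul_left_cancel₀ hN0'.ne' h3
  -- the quotient is a monomial
  obtain ⟨b0, hb0⟩ : ∃ b, q b ≠ 0 := by
    by_contra hcon
    push Not at hcon
    have h1 := hCq 0
    rw [nm_zero, if_pos (Nat.zero_le _)] at h1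
    rw [sum_eq_zero fun c _ => by rw [hcon, mul_zero]] at h1
    apply hl
    rw [hψ] at h1
    beta_reduce at h1
    rw [add_zero] at h1
    exact h1.symm
  have hb0m : nm b0 ≤ 2 * i * δ := by
    by_contra h1
    apply hb0
    have h2 := hqH b0
    rw [hH0 b0 (by omega)] at h2
    rcases mul_eq_zero.1 h2.symm with h3 | h3
    · omega
    · exact h3
  have hoth : ∀ b, b ≠ b0 → q b = 0 := by
    intro b hb
    by_contra h1
    have hbm : nm b ≤ 2 * i * δ := by
      by_contra h2
      apply h1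
      have h3 := hqH b
      rw [hH0 b (by omega)] at h3
      rcases mul_eq_zero.1 h3.symm with h4 | h4
      · omega
      · exact h4
    have h2 := hqsum {b, b0} (by
      intro x hx
      rw [mem_insert, mem_singleton] at hx
      rcases hx with rfl | rfl
      · exact mem_bo.2 hbm
      · exact mem_bo.2 hb0m)
    rw [sum_pair hb] at h2
    have h3 : 0 < q b ^ 2 := by positivity
    have h4 : 0 < q b0 ^ 2 := by positivity
    omega
  have hb1 : |q b0| = 1 := by
    have h2 := hqsum {b0} (by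
      intro x hx
      rw [mem_singleton] at hx
      rw [hx]
      exact mem_bo.2 hb0m)
    rw [sum_singleton] at h2
    have h3 : q b0 ^ 2 ≤ 1 ^ 2 := by rw [one_pow]; exact h2
    have h4 : |q b0| ≤ 1 := abs_le_of_sq_le_sq h3 (by norm_num)
    have h5 := Int.one_le_abs hb0
    omega
  refine ⟨b0, by omega, ?_⟩
  have h1 := hCq b0
  rw [if_pos (by omega), sum_eq_single 0] at h1
  · rw [sub_zero, hN] at h1
    show |ψ b0| = N
    rw [← h1, abs_mul, hb1, mul_one]
    exact abs_of_pos hN0'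
  · intro c _ hc
    rw [hoth, mul_zero]
    intro h2
    exact hc (by
      have := sub_eq_self.1 h2
      exact this)
  · intro h2
    rw [Finsupp.notMem_support_iff] at h2
    rw [h2, zero_mul]

end Pool.Agent.Q167.FE
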