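import Pool.Agent.Q167.FE.Act

/-!
# Supports and norms
-/

set_option autoImplicit false

open Finset AddMonoidAlgebra

namespace Pool.Agent.Q167.FE

open Pool.Agent.Q167.FD

section nrm

variable {r : ℕ}

/-- the maximum norm -/
def nm (b : Fin r → ℤ) : ℕ := univ.sup fun i => (b i).natAbs

theorem nm_le {b : Fin r → ℤ} {N : ℕ} : nm b ≤ N ↔ ∀ i, (b i).natAbs ≤ N := by
  unfold nm
  rw [Finset.sup_le_iff]
  exact ⟨fun h i => h i (mem_univ i), fun h i _ => h i⟩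

theorem le_nm (b : Fin r → ℤ) (i : Fin r) : (b i).natAbs ≤ nm b := nm_le.1 le_rfl i

theorem nm_zero : nm (0 : Fin r → ℤ) = 0 := by
  have : nm (0 : Fin r → ℤ) ≤ 0 := nm_le.2 fun i => by simp
  omega

theorem nm_add (a b : Fin r → ℤ) : nm (a + b) ≤ nm a + nm b := by
  rw [nm_le]
  intro i
  have h1 := le_nm a i
  have h2 := le_nm b i
  rw [Pi.add_apply]
  omega

theorem nm_neg (a : Fin r → ℤ) : nm (-a) = nm a := by
  unfold nm
  congr 1
  funext i
  rw [Pi.neg_apply, Int.natAbs_neg]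

theorem nm_sub (a b : Fin r → ℤ) : nm (a - b) ≤ nm a + nm b := by
  rw [sub_eq_add_neg, ← nm_neg b]
  exact nm_add a (-b)

theorem nm_sub' (a b : Fin r → ℤ) : nm a ≤ nm (a - b) + nm b := by
  have := nm_add (a - b) b
  rwa [sub_add_cancel] at this

theorem nm_smul (k : ℕ) (a : Fin r → ℤ) : nm (k • a) = k * nm a := by
  apply le_antisymm
  · rw [nm_le]
    intro i
    rw [Pi.smul_apply, nsmul_eq_mul, Int.natAbs_mul, Int.natAbs_natCast]
    exact Nat.mul_le_mul_left k (le_nm a i)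
  · rcases Nat.eq_zero_or_pos k with rfl | hk
    · simp
    · rw [mul_comm, ← Nat.le_div_iff_mul_le hk, nm_le]
      intro i
      rw [Nat.le_div_iff_mul_le hk]
      have h1 := le_nm (k • a) i
      rw [Pi.smul_apply, nsmul_eq_mul, Int.natAbs_mul, Int.natAbs_natCast] at h1
      rwa [mul_comm]

theorem nm_zsmul (k : ℤ) (a : Fin r → ℤ) : nm (k • a) = k.natAbs * nm a := by
  rcases Int.natAbs_eq k with h | h
  · conv_lhs => rw [h]
    rw [natCast_zsmul, nm_smul]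
  · conv_lhs => rw [h]
    rw [neg_smul, nm_neg, natCast_zsmul, nm_smul]

theorem nm_pos {a : Fin r → ℤ} (ha : a ≠ 0) : 1 ≤ nm a := by
  by_contra h
  apply ha
  funext i
  have h1 := le_nm a i
  rw [Pi.zero_apply]
  omega

/-- the box -/
noncomputable def bo (r N : ℕ) : Finset (Fin r → ℤ) := Fintype.piFinset fun _ => Icc (-(N : ℤ)) N

theorem mem_bo {N : ℕ} {b : Fin r → ℤ} : b ∈ bo r N ↔ nm b ≤ N := by
  unfold bo
  rw [Fintype.mem_piFinset, nm_le]
  refine forall_congr' fun i => ?_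
  rw [mem_Icc]
  omega

end nrm

section supp

variable {r : ℕ}

/-- bounds of the support -/
def Sb (lo hi : Fin r → ℤ) (A : ℤ[Fin r → ℤ]) : Prop :=
  ∀ x, A.coeff x ≠ 0 → lo ≤ x ∧ x ≤ hi

theorem Sb.mul {lo hi lo' hi' : Fin r → ℤ} {A B : ℤ[Fin r → ℤ]} (hA : Sb lo hi A)
    (hB : Sb lo' hi' B) : Sb (lo + lo') (hi + hi') (A * B) := by
  intro x hx
  rw [coeff_mul, ac_apply] at hx
  obtain ⟨c, hc, hcx⟩ := exists_ne_zero_of_sum_ne_zero hx
  have h1 := hA c (left_ne_zero_of_mul hcx)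
  have h2 := hB (x - c) (right_ne_zero_of_mul hcx)
  constructor
  · have := add_le_add h1.1 h2.1
    rwa [add_sub_cancel] at this
  · have := add_le_add h1.2 h2.2
    rwa [add_sub_cancel] at this

theorem Sb.one : Sb (0 : Fin r → ℤ) 0 1 := by
  intro x hx
  rw [one_def, coeff_single, Finsupp.single_apply] at hx
  split_ifs at hx with h
  · rw [← h]
    exact ⟨le_rfl, le_rfl⟩
  · exact absurd rfl hx

theorem Sb.single {lo hi : Fin r → ℤ} {v : Fin r → ℤ} (h1 : lo ≤ v) (h2 : v ≤ hi) (z : ℤ) :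
    Sb lo hi (AddMonoidAlgebra.single v z) := by
  intro x hx
  rw [coeff_single, Finsupp.single_apply] at hx
  split_ifs at hx with h
  · rw [← h]
    exact ⟨h1, h2⟩
  · exact absurd rfl hx

theorem Sb.sub {lo hi : Fin r → ℤ} {A B : ℤ[Fin r → ℤ]} (hA : Sb lo hi A)
    (hB : Sb lo hi B) : Sb lo hi (A - B) := by
  intro x hx
  have h1 : (A - B).coeff x = A.coeff x - B.coeff x := rfl
  rw [h1] at hx
  by_cases h2 : A.coeff x = 0
  · rw [h2, zero_sub] at hx
    exact hB x (neg_ne_zero.1 hx)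
  · exact hA x h2

theorem Sb.mono {lo hi lo' hi' : Fin r → ℤ} {A : ℤ[Fin r → ℤ]} (hA : Sb lo hi A)
    (h1 : lo' ≤ lo) (h2 : hi ≤ hi') : Sb lo' hi' A :=
  fun x hx => ⟨h1.trans (hA x hx).1, (hA x hx).2.trans h2⟩

theorem Sb.sum {lo hi : Fin r → ℤ} {ι : Type} (s : Finset ι) (A : ι → ℤ[Fin r → ℤ])
    (h : ∀ i ∈ s, Sb lo hi (A i)) : Sb lo hi (∑ i ∈ s, A i) := by
  classical
  induction s using Finset.induction_on with
  | empty =>
    intro x hx
    rw [sum_empty] at hx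
    exact absurd rfl hx
  | insert i s hi ih =>
    intro x hx
    rw [sum_insert hi] at hx
    have h1 : (A i + ∑ i ∈ s, A i).coeff x = (A i).coeff x + (∑ i ∈ s, A i).coeff x := rfl
    rw [h1] at hx
    by_cases h2 : (A i).coeff x = 0
    · rw [h2, zero_add] at hx
      exact ih (fun j hj => h j (mem_insert_of_mem hj)) x hx
    · exact h i (mem_insert_self _ _) x h2

theorem Sb.prod {ι : Type} (s : Finset ι) (lo hi : ι → Fin r → ℤ) (A : ι → ℤ[Fin r → ℤ])
    (h : ∀ i ∈ s, Sb (lo i) (hi i) (A i)) : Sb (∑ i ∈ s, lo i) (∑ i ∈ s, hi i) (∏ i ∈ s, A i) := by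
  classical
  induction s using Finset.induction_on with
  | empty =>
    rw [sum_empty, sum_empty, prod_empty]
    exact Sb.one
  | insert i s hi' ih =>
    rw [sum_insert hi', sum_insert hi', prod_insert hi']
    exact (h i (mem_insert_self _ _)).mul (ih fun j hj => h j (mem_insert_of_mem hj))

variable {m : ℕ}

/-- the support of the density -/
theorem sb_den (Φ : Fin m → (Fin r → ℤ)) : Sb (∑ j, -|Φ j|) (∑ j, |Φ j|) (den Φ) := by
  unfold den
  refine Sb.prod _ _ _ _ fun j _ => ?_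
  have h1 : Sb (Φ j ⊓ 0) (Φ j ⊔ 0) (1 - AddMonoidAlgebra.single (Φ j) (1 : ℤ)) :=
    (Sb.one.mono inf_le_right le_sup_right).sub (Sb.single inf_le_left le_sup_left 1)
  have h2 : Sb (-Φ j ⊓ 0) (-Φ j ⊔ 0) (1 - AddMonoidAlgebra.single (-Φ j) (1 : ℤ)) :=
    (Sb.one.mono inf_le_right le_sup_right).sub (Sb.single inf_le_left le_sup_left 1)
  refine (h1.mul h2).mono ?_ ?_
  · intro i
    simp only [Pi.add_apply, Pi.inf_apply, Pi.neg_apply, Pi.abs_apply, Pi.zero_apply]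
    rcases le_total 0 (Φ j i) with h | h
    · rw [abs_of_nonneg h, inf_of_le_right h, inf_of_le_left (by omega)]
      omega
    · rw [abs_of_nonpos h, inf_of_le_left h, inf_of_le_right (by omega)]
      omega
  · intro i
    simp only [Pi.add_apply, Pi.sup_apply, Pi.neg_apply, Pi.abs_apply, Pi.zero_apply]
    rcases le_total 0 (Φ j i) with h | h
    · rw [abs_of_nonneg h, sup_of_le_left h, sup_of_le_right (by omega)]
      omega
    · rw [abs_of_nonpos h, sup_of_le_right h, sup_of_le_left (by omega)]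
      omega

theorem nm_den {Φ : Fin m → (Fin r → ℤ)} {δ : ℕ} (hδ : ∀ i, ∑ j, (Φ j i).natAbs ≤ δ)
    {c : Fin r → ℤ} (hc : (den Φ).coeff c ≠ 0) : nm c ≤ δ := by
  rw [nm_le]
  intro i
  have h1 := sb_den Φ c hc
  have h2 := h1.1 i
  have h3 := h1.2 i
  rw [Finset.sum_apply] at h2 h3
  simp only [Pi.neg_apply, Pi.abs_apply] at h2 h3
  have h4 : ((∑ j, (Φ j i).natAbs : ℕ) : ℤ) ≤ δ := by exact_mod_cast hδ i
  push_cast at h4
  rw [Finset.sum_neg_distrib] at h2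
  omega

/-- the support of the test function -/
theorem sb_Fk (k : ℕ) (Φ : Fin m → (Fin r → ℤ)) :
    Sb (∑ j, (k - 1 : ℕ) • (Φ j ⊓ 0)) (∑ j, (k - 1 : ℕ) • (Φ j ⊔ 0)) (Fk k Φ) := by
  unfold Fk
  refine Sb.prod _ _ _ _ fun j _ => ?_
  unfold kap
  refine Sb.sum _ _ fun i hi => ?_
  rw [single_pow, one_pow]
  have hik : i ≤ k - 1 := by
    have := mem_range.1 hi
    omega
  have hik' : (i : ℤ) ≤ ((k - 1 : ℕ) : ℤ) := by exact_mod_cast hik
  have hi0 : (0 : ℤ) ≤ (i : ℤ) := Int.natCast_nonneg i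
  refine Sb.single ?_ ?_ 1
  · intro x
    simp only [Pi.smul_apply, Pi.inf_apply, Pi.zero_apply, nsmul_eq_mul]
    rcases le_total 0 (Φ j x) with h | h
    · rw [inf_of_le_right h, mul_zero]
      exact mul_nonneg hi0 h
    · rw [inf_of_le_left h]
      exact mul_le_mul_of_nonpos_right hik' h
  · intro x
    simp only [Pi.smul_apply, Pi.sup_apply, Pi.zero_apply, nsmul_eq_mul]
    rcases le_total 0 (Φ j x) with h | h
    · rw [sup_of_le_left h]
      exact mul_le_mul_of_nonneg_right hik' h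
    · rw [sup_of_le_right h, mul_zero]
      exact mul_nonpos_of_nonneg_of_nonpos hi0 h

theorem nm_Fk {k : ℕ} {Φ : Fin m → (Fin r → ℤ)} {δ : ℕ} (hδ : ∀ i, ∑ j, (Φ j i).natAbs ≤ δ)
    {x y : Fin r → ℤ} (hx : (Fk k Φ).coeff x ≠ 0) (hy : (Fk k Φ).coeff y ≠ 0) :
    nm (x - y) ≤ (k - 1) * δ := by
  rw [nm_le]
  intro i
  have h1 := sb_Fk k Φ x hx
  have h2 := sb_Fk k Φ y hy
  have h3 := h1.1 i
  have h4 := h1.2 i
  have h5 := h2.1 i
  have h6 := h2.2 i
  rw [Finset.sum_apply] at h3 h4 h5 h6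
  simp only [Pi.smul_apply, Pi.inf_apply, Pi.sup_apply, Pi.zero_apply, nsmul_eq_mul] at h3 h4 h5 h6
  rw [← Finset.mul_sum] at h3 h4 h5 h6
  have h7 : ∑ j, (Φ j i ⊔ 0) - ∑ j, (Φ j i ⊓ 0) = ((∑ j, (Φ j i).natAbs : ℕ) : ℤ) := by
    push_cast
    rw [← Finset.sum_sub_distrib]
    refine sum_congr rfl fun j _ => ?_
    rcases le_total 0 (Φ j i) with h | h
    · rw [sup_of_le_left h, inf_of_le_right h, abs_of_nonneg h, sub_zero]
    · rw [sup_of_le_right h, inf_of_le_left h, abs_of_nonpos h, zero_sub]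
  have h8 : ((∑ j, (Φ j i).natAbs : ℕ) : ℤ) ≤ δ := by exact_mod_cast hδ i
  have h9 : (((k - 1 : ℕ)) : ℤ) * (∑ j, (Φ j i ⊔ 0) - ∑ j, (Φ j i ⊓ 0)) ≤ ((k - 1 : ℕ) : ℤ) * δ := by
    rw [h7]
    exact mul_le_mul_of_nonneg_left h8 (Int.natCast_nonneg _)
  rw [mul_sub] at h9
  have h10 : (((k - 1) * δ : ℕ) : ℤ) = ((k - 1 : ℕ) : ℤ) * δ := by push_cast; ring
  rw [Pi.sub_apply]
  have h11 : |x i - y i| ≤ (((k - 1) * δ : ℕ) : ℤ) := by
    rw [h10, abs_le]
    constructor <;> linarith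
  omega

end supp

end Pool.Agent.Q167.FE
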